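import Mathlib

namespace Run7.H457.DB

/-- If `p ≡ 2` modulo `3` divides `x² + xy + y²` then it divides `x` and `y`. -/
theorem dvd_of_dvd_norm {p : ℕ} [hp : Fact p.Prime] (h3 : p % 3 = 2) {x y : ℤ}
    (h : (p : ℤ) ∣ x ^ 2 + x * y + y ^ 2) : (p : ℤ) ∣ x ∧ (p : ℤ) ∣ y := by
  have key : ∀ x y : ZMod p, x ^ 2 + x * y + y ^ 2 = 0 → y = 0 := by
    intro x y hxy
    by_contra hy
    set t : ZMod p := x / y with ht
    have h1 : t ^ 2 + t + 1 = 0 := by
      have : (t ^ 2 + t + 1) * y ^ 2 = 0 := by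
        rw [ht]
        field_simp
        linear_combination hxy
      rcases mul_eq_zero.1 this with h | h
      · exact h
      · exact absurd h (pow_ne_zero 2 hy)
    have h2 : t ^ 3 = 1 := by linear_combination (t - 1) * h1
    have ht0 : t ≠ 0 := by
      intro h0
      rw [h0] at h1
      simp at h1
    have h4 : t ^ (p - 1) = 1 := ZMod.pow_card_sub_one_eq_one ht0
    have h5 : t = 1 := by
      have hp1 : p - 1 = 3 * ((p - 2) / 3) + 1 := by
        have := hp.out.two_le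
        omega
      rw [hp1, pow_add, pow_mul, h2, one_pow, one_mul, pow_one] at h4
      exact h4
    rw [h5] at h1
    have h6 : ((3 : ℕ) : ZMod p) = 0 := by
      push_cast
      linear_combination h1
    rw [ZMod.natCast_eq_zero_iff] at h6
    have := (Nat.prime_dvd_prime_iff_eq hp.out Nat.prime_three).1 h6
    omega
  have h' : ((x : ZMod p)) ^ 2 + (x : ZMod p) * y + (y : ZMod p) ^ 2 = 0 := by
    have := (ZMod.intCast_zmod_eq_zero_iff_dvd _ p).2 h
    push_cast at this
    exact this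
  refine ⟨?_, ?_⟩
  · rw [← ZMod.intCast_zmod_eq_zero_iff_dvd]
    exact key (y : ZMod p) (x : ZMod p) (by linear_combination h')
  · rw [← ZMod.intCast_zmod_eq_zero_iff_dvd]
    exact key (x : ZMod p) (y : ZMod p) h'

theorem even_val_int {p : ℕ} [hp : Fact p.Prime] (h3 : p % 3 = 2) : ∀ (n : ℕ) (x y : ℤ),
    (x ^ 2 + x * y + y ^ 2).natAbs ≤ n → x ^ 2 + x * y + y ^ 2 ≠ 0 →
    Even (padicValRat p ((x ^ 2 + x * y + y ^ 2 : ℤ) : ℚ)) := by
  intro n
  induction n with
  | zero =>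
    intro x y hn h0
    exact absurd (Int.natAbs_eq_zero.1 (Nat.le_zero.1 hn)) h0
  | succ n ih =>
    intro x y hn h0
    by_cases hd : (p : ℤ) ∣ x ^ 2 + x * y + y ^ 2
    · obtain ⟨⟨a, rfl⟩, ⟨b, rfl⟩⟩ := dvd_of_dvd_norm h3 hd
      have e : ((p : ℤ) * a) ^ 2 + (p * a) * (p * b) + ((p : ℤ) * b) ^ 2 =
          (p : ℤ) ^ 2 * (a ^ 2 + a * b + b ^ 2) := by ring
      rw [e] at hn h0 ⊢
      have h1 : a ^ 2 + a * b + b ^ 2 ≠ 0 := fun h => h0 (by rw [h, mul_zero])
      have hp0 : (p : ℚ) ≠ 0 := by exact_mod_cast hp.out.ne_zero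
      have hlt : (a ^ 2 + a * b + b ^ 2).natAbs ≤ n := by
        rw [Int.natAbs_mul, Int.natAbs_pow, Int.natAbs_natCast] at hn
        have h2 : 0 < (a ^ 2 + a * b + b ^ 2).natAbs := Int.natAbs_pos.2 h1
        have h4 : 2 * (a ^ 2 + a * b + b ^ 2).natAbs ≤ p ^ 2 * (a ^ 2 + a * b + b ^ 2).natAbs := by
          refine Nat.mul_le_mul_right _ ?_
          have := hp.out.two_le
          nlinarith
        omega
      have h5 := ih a b hlt h1
      have h6 : (((p : ℤ) ^ 2 * (a ^ 2 + a * b + b ^ 2) : ℤ) : ℚ) =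
          (p : ℚ) ^ 2 * ((a ^ 2 + a * b + b ^ 2 : ℤ) : ℚ) := by push_cast; ring
      rw [h6, padicValRat.mul (pow_ne_zero 2 hp0) (by exact_mod_cast h1), padicValRat.pow,
        padicValRat.self hp.out.one_lt]
      exact Even.add (by simp) h5
    · have : padicValRat p ((x ^ 2 + x * y + y ^ 2 : ℤ) : ℚ) = 0 := by
        rw [padicValRat.of_int, padicValInt.eq_zero_of_not_dvd hd]
        rfl
      rw [this]
      exact Even.zero

/-- A nonzero norm `a² + 3b²` has even valuation at all primes `p ≡ 2` modulo `3`. -/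
theorem even_val {p : ℕ} [hp : Fact p.Prime] (h3 : p % 3 = 2) {a b m : ℚ} (hm : m ≠ 0)
    (h : m = a ^ 2 + 3 * b ^ 2) : Even (padicValRat p m) := by
  set n : ℕ := a.den * b.den with hn
  have hn0 : (n : ℚ) ≠ 0 := by
    rw [hn]
    push_cast
    exact mul_ne_zero (by exact_mod_cast a.den_ne_zero) (by exact_mod_cast b.den_ne_zero)
  have ha : (a.num * b.den : ℚ) = n * a := by
    rw [hn]
    push_cast
    rw [← Rat.mul_den_eq_num a]
    ring
  have hb : (b.num * a.den : ℚ) = n * b := by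
    rw [hn]
    push_cast
    rw [← Rat.mul_den_eq_num b]
    ring
  set x : ℤ := a.num * b.den - b.num * a.den
  set y : ℤ := 2 * (b.num * a.den)
  have hx : ((x ^ 2 + x * y + y ^ 2 : ℤ) : ℚ) = (n : ℚ) ^ 2 * m := by
    have h1 : (x : ℚ) = n * a - n * b := by
      simp only [x]
      push_cast
      rw [ha, hb]
    have h2 : (y : ℚ) = 2 * (n * b) := by
      simp only [y]
      push_cast
      rw [hb]
    push_cast
    rw [h1, h2, h]
    ring
  have h0 : x ^ 2 + x * y + y ^ 2 ≠ 0 := by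
    intro h1
    rw [h1] at hx
    have : (n : ℚ) ^ 2 * m = 0 := by
      rw [← hx]
      norm_num
    rcases mul_eq_zero.1 this with h2 | h2
    · exact pow_ne_zero 2 hn0 h2
    · exact hm h2
  have h4 := even_val_int h3 _ x y le_rfl h0
  rw [hx, padicValRat.mul (pow_ne_zero 2 hn0) hm, padicValRat.pow] at h4
  have h5 : Even (((2 : ℕ) : ℤ) * padicValRat p (n : ℚ)) := by
    rw [Nat.cast_ofNat]
    exact even_two_mul _
  exact (Int.even_add.1 h4).1 h5

end Run7.H457.DB
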