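import Mathlib

namespace Run7.H457.DB

/-- The data: `V` is the class of connected smooth projective complex varieties, with dimension,
second Betti number, the sum `off` of the Hodge numbers `h^{p,q}` with `p ≠ q`, the product, the
projective spaces, and the relations: `blow X Y Z c` (`X` is the blow-up of `Y` along the connected
smooth subvariety `Z` of codimension `c`), `bun X Y r` (`X` is the projectivization of a vector
bundle of rank `r` on `Y`), `Bir` (birational), `SS` (the big quantum cohomology is generically
semisimple), `FEC` (the derived category has a full exceptional collection), `Fano`, `KNef` (the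
canonical bundle is nef).
`atoms X` is the multiset of the atoms of `X`: the summands of the quantum cohomology (as an
`F`-bundle) at a general point cut out by the eigenvalues of the Euler vector field, up to
equivalence; `rk` is the rank of an atom and `offA` the sum of its Hodge numbers `h^{p,q}` with
`p ≠ q`. -/
structure World where
  V : Type
  dim : V → ℕ
  b2 : V → ℕ
  off : V → ℕ
  prod : V → V → V
  proj : ℕ → V
  blow : V → V → V → ℕ → Prop
  bun : V → V → ℕ → Prop
  Bir : V → V → Prop
  SS : V → Prop
  FEC : V → Prop
  Fano : V → Prop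
  KNef : V → Prop
  Atom : Type
  atoms : V → Multiset Atom
  rk : Atom → ℕ
  offA : Atom → ℕ

variable (W : World)

/-- A blow-up along a connected smooth center of codimension at least two. -/
def IsBlowup (X Y : W.V) : Prop := ∃ Z c, W.blow X Y Z c

/-- Every atom of `Z` has rank one or has a Hodge class off the diagonal. -/
def Tame (Z : W.V) : Prop := ∀ a ∈ W.atoms Z, W.rk a = 1 ∨ 0 < W.offA a

/-- A blow-up along a tame center. -/
def IsTameBlowup (X Y : W.V) : Prop := ∃ Z c, W.blow X Y Z c ∧ Tame W Z

/-- Connected by a chain of blow-ups and blow-downs with tame centers. -/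
def TameEquiv (X Y : W.V) : Prop := Relation.EqvGen (IsTameBlowup W) X Y

/-- `X` is rational. -/
def Rational (X : W.V) : Prop := W.Bir X (W.proj (W.dim X))

open Classical in
/-- The residual atoms of `X`: those of rank at least two all of whose Hodge classes are on the
diagonal. -/
noncomputable def residual (X : W.V) : Multiset W.Atom :=
  (W.atoms X).filter (fun a => W.rk a ≠ 1 ∧ W.offA a = 0)

/-- `a` is an atom of a minimal surface `S` with nef canonical bundle and `p_g = q = 0` (an Enriques
surface, a Godeaux surface, ...). -/
def IsMinAtom (a : W.Atom) : Prop := ∃ S, W.dim S = 2 ∧ W.KNef S ∧ W.off S = 0 ∧ a ∈ W.atoms S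

/-- Dimensions in a blow-up. -/
def DimFacts : Prop :=
  (∀ X Y Z c, W.blow X Y Z c → 2 ≤ c ∧ W.dim Z + c = W.dim Y ∧ W.dim X = W.dim Y) ∧
  (∀ X Y r, W.bun X Y r → 1 ≤ r) ∧ (∀ n, W.dim (W.proj n) = n)

/-- The theory of atoms (Katzarkov, Kontsevich, Pantev, Yu; based on Iritani's decomposition
theorem for blow-ups and the theorem of Iritani and Koto for projective bundles). -/
structure AtomFacts : Prop where
  blow : ∀ X Y Z c, W.blow X Y Z c → W.atoms X = W.atoms Y + (c - 1) • W.atoms Z
  bun : ∀ X Y r, W.bun X Y r → W.atoms X = r • W.atoms Y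
  hodge : ∀ X, W.off X = ((W.atoms X).map W.offA).sum
  ss : ∀ X, W.SS X ↔ ∀ a ∈ W.atoms X, W.rk a = 1
  rank_one : ∀ a, W.rk a = 1 → W.offA a = 0
  /-- points, `ℙ¹`: atoms of rank one; curves of positive genus: one atom, which contains
  `H^{1,0}`. -/
  low : ∀ Z, W.dim Z ≤ 1 → Tame W Z
  pt : ∀ Z, W.dim Z = 0 → W.off Z = 0
  /-- if `K` is nef then the Euler field acts with one eigenvalue: there is one atom, which is all
  of `H^*`. -/
  nef : ∀ X, W.KNef X → 0 < W.dim X → ∃ a, W.atoms X = {a} ∧ W.rk a ≠ 1

/-- The theorems on derived categories (Orlov; additivity of Hochschild homology). -/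
structure DerivedFacts : Prop where
  off : ∀ X, W.FEC X → W.off X = 0
  blow : ∀ X Y Z c, W.blow X Y Z c → W.FEC Y → W.FEC Z → W.FEC X
  bun : ∀ X Y r, W.bun X Y r → W.FEC Y → W.FEC X
  prod : ∀ X Y, W.FEC X → W.FEC Y → W.FEC (W.prod X Y)

/-- Products (Künneth, Kaufmann). -/
structure ProductFacts : Prop where
  ss : ∀ X Y, W.SS X → W.SS Y → W.SS (W.prod X Y)
  off : ∀ X Y, W.off X ≠ 0 ∨ W.off Y ≠ 0 → W.off (W.prod X Y) ≠ 0

/-- The geometric theorems: weak factorization (Abramovich, Karu, Matsuki, Wlodarczyk);
minimal models of surfaces;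
projective spaces have semisimple quantum cohomology; Fano threefolds without odd cohomology are
rational and have full exceptional collections (classification of Iskovskikh and Mori-Mukai,
with Beilinson, Kapranov, Orlov, Kuznetsov); del Pezzo surfaces; Casagrande's theorem: Fano
fourfolds with second Betti number larger than 12 are products of del Pezzo surfaces. -/
structure GeometricFacts : Prop where
  wf : ∀ X Y, W.Bir X Y → Relation.EqvGen (IsBlowup W) X Y
  ss_proj : ∀ n, W.SS (W.proj n)
  /-- a surface is obtained by blowing up points from `ℙ²`, from a ruled surface over a curve or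
  from a surface with nef canonical bundle. -/
  surf : ∀ S, W.dim S = 2 → ∃ S0, Relation.EqvGen (IsBlowup W) S S0 ∧
    (S0 = W.proj 2 ∨ (∃ C, W.dim C = 1 ∧ W.bun S0 C 2) ∨ W.KNef S0)
  fano3_rational : ∀ X, W.Fano X → W.dim X = 3 → W.off X = 0 → Rational W X
  fano3_fec : ∀ X, W.Fano X → W.dim X = 3 → W.off X = 0 → W.FEC X
  dp : ∀ S, W.Fano S → W.dim S = 2 → W.SS S ∧ W.FEC S
  casagrande : ∀ X, W.Fano X → W.dim X = 4 → 12 < W.b2 X → ∃ S T, X = W.prod S T ∧
    W.Fano S ∧ W.dim S = 2 ∧ W.Fano T ∧ W.dim T = 2

/-- The smallest class which contains all varieties with semisimple quantum cohomology and a full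
exceptional collection and all varieties with a Hodge number off the diagonal, and is closed under
blow-ups along members, projective bundles and products. -/
inductive Cls : W.V → Prop
  | base (X : W.V) : W.SS X → W.FEC X → Cls X
  | off (X : W.V) : W.off X ≠ 0 → Cls X
  | blow (X Y Z : W.V) (c : ℕ) : W.blow X Y Z c → Cls Y → Cls Z → Cls X
  | bun (X Y : W.V) (r : ℕ) : W.bun X Y r → Cls Y → Cls X
  | prod (X Y : W.V) : Cls X → Cls Y → Cls (W.prod X Y)

/-- The published theorems used. -/
structure Known : Prop where
  dim : DimFacts W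
  atoms : AtomFacts W
  derived : DerivedFacts W
  prod : ProductFacts W
  geom : GeometricFacts W

end Run7.H457.DB
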