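import Mathlib
import Pool.Agent.Run7.h457.DB.Defs

namespace Run7.H457.DB

/-- Two diagonal rational quadratic forms of the same rank are isometric. -/
def Isom {ι κ : Type} [Fintype ι] [Fintype κ] (w : ι → ℚ) (u : κ → ℚ) : Prop :=
  Fintype.card ι = Fintype.card κ ∧
    ∃ f : (κ → ℚ) →ₗ[ℚ] (ι → ℚ), ∀ y z, ∑ i, w i * f y i * f z i = ∑ j, u j * y j * z j

/-- Further data on a `World`: `p2 a` is the dimension of the part of the atom `a` with
`p - q = 2`; `h2 X` is the sum of the `h^{p,q}(X)` with `p - q = 2` (for surfaces: `p_g`);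
`HS` is the set of isomorphism classes of irreducible rational Hodge structures of K3 type up to
Tate twists, `rkH` the rank, `EndQ T`: the endomorphism algebra of `T` is `ℚ`;
`trans a T`: the atom `a` and `T` (as representations of the Hodge group over the field of
definition of the atoms) have a common irreducible constituent which meets the part `p - q = 2`;
`T X` is the transcendental Hodge structure of a cubic fourfold or of a surface with `p_g = 1`.
For cubic fourfolds `rA X` is the rank of `A(X) = H^{2,2}(X) ∩ H⁴(X, ℤ)` and `disc X` its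
discriminant. For surfaces: `rho` the Picard number, `K2` the number `K²`, `b2` the second Betti
number. For K3 surfaces of Picard number one `2 * hdeg S` is the degree. `q X` are the weights of a
diagonalization over `ℚ` of the form on `T X` if it has rank 21, with the sign such that it is
positive on the real part of `p - q = ±2`. -/
structure Cub (W : World) where
  p2 : W.Atom → ℕ
  h2 : W.V → ℕ
  HS : Type
  rkH : HS → ℕ
  EndQ : HS → Prop
  trans : W.Atom → HS → Prop
  T : W.V → HS
  IsCubic : W.V → Prop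
  rA : W.V → ℕ
  disc : W.V → ℕ
  rho : W.V → ℕ
  K2 : W.V → ℕ
  IsK3 : W.V → Prop
  hdeg : W.V → ℕ
  q : W.V → Fin 21 → ℚ

variable {W : World} (C : Cub W)

/-- `S` is a minimal surface with nef canonical bundle and `p_g = 1`. -/
def IsMin (S : W.V) : Prop := W.dim S = 2 ∧ W.KNef S ∧ C.h2 S = 1

/-- The theory of atoms and of Hodge structures of K3 type. -/
structure HodgeFacts : Prop where
  /-- projective spaces, points and curves have no classes with `p - q = 2`. -/
  proj : ∀ n, ∀ a ∈ W.atoms (W.proj n), C.p2 a = 0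
  low : ∀ Z, W.dim Z ≤ 1 → ∀ a ∈ W.atoms Z, C.p2 a = 0
  /-- the only atom of a surface with nef canonical bundle is `H^*(S)`. -/
  nef : ∀ S, W.dim S = 2 → W.KNef S → ∃ a, W.atoms S = {a} ∧ C.p2 a = C.h2 S ∧
    (C.h2 S = 1 → C.trans a (C.T S))
  /-- an atom with `p2 a = 1` determines the irreducible Hodge structure. -/
  uniq : ∀ a T T', C.p2 a = 1 → C.trans a T → C.trans a T' → T = T'
  /-- Hodge structures of K3 type have rank at least two. -/
  rk_two : ∀ T, 2 ≤ C.rkH T
  /-- the atom of a cubic fourfold which contains `H^{3,1}`. -/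
  cubic : ∀ X, C.IsCubic X → W.dim X = 4 ∧ (∃ a ∈ W.atoms X, C.p2 a = 1 ∧ C.trans a (C.T X)) ∧
    C.rkH (C.T X) + C.rA X = 23

/-- Minimal surfaces with `p_g = 1` and nef canonical bundle: `b_2 = rk T + ρ`, Noether's formula,
`K² ≥ 0`, `ρ ≥ 1`; with `b_2 = 22` and `ρ = 1` the surface is a K3 surface (otherwise it is
elliptic and `ρ ≥ 2`). -/
structure SurfaceFacts : Prop where
  noether : ∀ S, IsMin C S → C.rkH (C.T S) + C.rho S + C.K2 S ≤ 22 ∧ 1 ≤ C.rho S
  k3 : ∀ S, IsMin C S → C.rkH (C.T S) = 21 → C.rho S = 1 → C.K2 S = 0 → C.IsK3 S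

/-- The quadratic forms: a K3 surface `S` with `ρ = 1` has `T(S) ⊕ ⟨2k⟩ ≅ 3⟨1⟩ ⊕ 19⟨-1⟩`; a cubic
fourfold with `A(X)` of rank two and discriminant `d` has `T(X)(-1) ⊕ ⟨-3, -3d⟩ ≅ 2⟨1⟩ ⊕ 21⟨-1⟩`; if
the endomorphism algebra is `ℚ` then an isomorphism of Hodge structures is an isometry up to a
positive rational factor. -/
structure FormFacts : Prop where
  k3 : ∀ S, C.IsK3 S → C.rho S = 1 → 0 < C.hdeg S ∧ (∀ i, C.q S i ≠ 0) ∧
    Isom (Sum.elim (C.q S) ![2 * (C.hdeg S : ℚ)]) (Sum.elim (fun _ : Fin 19 => (-1 : ℚ)) ![1, 1, 1])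
  cubic : ∀ X, C.IsCubic X → C.rA X = 2 → 0 < C.disc X ∧ (∀ i, C.q X i ≠ 0) ∧
    Isom (Sum.elim (C.q X) ![-3, -(3 * (C.disc X : ℚ))])
      (Sum.elim (fun _ : Fin 21 => (-1 : ℚ)) ![1, 1])
  prop : ∀ X S, C.IsCubic X → C.rA X = 2 → C.IsK3 S → C.rho S = 1 → C.T X = C.T S →
    C.EndQ (C.T X) → ∃ c : ℚ, 0 < c ∧ Isom (C.q S) (fun i => c * C.q X i)

/-- The published theorems used. -/
structure KnownCubic : Prop where
  dim : DimFacts W
  atoms : AtomFacts W
  geom : GeometricFacts W
  hodge : HodgeFacts C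
  surf : SurfaceFacts C
  form : FormFacts C

end Run7.H457.DB
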