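import Mathlib
import Pool.Agent.Run7.h457.DB.Defs

namespace Run7.H457.DB

variable {W : World}

theorem off_blow (A : AtomFacts W) {X Y Z : W.V} {c : ℕ} (h : W.blow X Y Z c) :
    W.off X = W.off Y + (c - 1) * W.off Z := by
  rw [A.hodge X, A.hodge Y, A.hodge Z, A.blow X Y Z c h, Multiset.map_add, Multiset.sum_add,
    Multiset.map_nsmul, Multiset.sum_nsmul, smul_eq_mul]

theorem off_bun (A : AtomFacts W) {X Y : W.V} {r : ℕ} (h : W.bun X Y r) :
    W.off X = r * W.off Y := by
  rw [A.hodge X, A.hodge Y, A.bun X Y r h, Multiset.map_nsmul, Multiset.sum_nsmul, smul_eq_mul]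

theorem off_of_ss (A : AtomFacts W) {X : W.V} (h : W.SS X) : W.off X = 0 := by
  rw [A.hodge X]
  refine Multiset.sum_eq_zero ?_
  intro x hx
  obtain ⟨a, ha, rfl⟩ := Multiset.mem_map.1 hx
  exact A.rank_one a ((A.ss X).1 h a ha)

theorem offA_of_off (A : AtomFacts W) {X : W.V} (h : W.off X = 0) : ∀ a ∈ W.atoms X, W.offA a = 0 := by
  intro a ha
  rw [A.hodge X] at h
  have h1 : W.offA a ≤ ((W.atoms X).map W.offA).sum :=
    Multiset.le_sum_of_mem (Multiset.mem_map_of_mem _ ha)
  omega

theorem residual_tame {Z : W.V} (h : Tame W Z) : residual W Z = 0 := by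
  classical
  unfold residual
  rw [Multiset.filter_eq_nil]
  rintro a ha ⟨h1, h2⟩
  rcases h a ha with h | h
  · exact h1 h
  · omega

theorem residual_blow (A : AtomFacts W) {X Y : W.V} (h : IsTameBlowup W X Y) :
    residual W X = residual W Y := by
  classical
  obtain ⟨Z, c, hb, hZ⟩ := h
  have h1 := residual_tame hZ
  unfold residual at h1 ⊢
  rw [A.blow X Y Z c hb, Multiset.filter_add, Multiset.filter_nsmul, h1]
  simp

/-- The residual atoms are invariant under tame blow-ups and blow-downs. -/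
theorem residual_inv (A : AtomFacts W) {X Y : W.V} (h : TameEquiv W X Y) :
    residual W X = residual W Y := by
  induction h with
  | rel _ _ h => exact residual_blow A h
  | refl _ => rfl
  | symm _ _ _ ih => exact ih.symm
  | trans _ _ _ _ _ ih ih' => exact ih.trans ih'

/-- Semisimplicity in terms of Hodge numbers and residual atoms. -/
theorem ss_iff (A : AtomFacts W) (X : W.V) : W.SS X ↔ W.off X = 0 ∧ residual W X = 0 := by
  classical
  constructor
  · intro h
    refine ⟨off_of_ss A h, ?_⟩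
    unfold residual
    rw [Multiset.filter_eq_nil]
    rintro a ha ⟨h1, _⟩
    exact h1 ((A.ss X).1 h a ha)
  · rintro ⟨h, h'⟩
    rw [A.ss X]
    intro a ha
    by_contra hne
    unfold residual at h'
    rw [Multiset.filter_eq_nil] at h'
    exact h' a ha ⟨hne, offA_of_off A h a ha⟩

theorem wf_low (A : AtomFacts W) (D : DimFacts W) {X Y : W.V}
    (h : Relation.EqvGen (IsBlowup W) X Y) :
    W.dim X = W.dim Y ∧ (W.dim X ≤ 3 → TameEquiv W X Y) := by
  induction h with
  | rel X Y h =>
    obtain ⟨Z, c, hb⟩ := h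
    obtain ⟨h1, h2, h3⟩ := D.1 X Y Z c hb
    refine ⟨h3, fun h4 => Relation.EqvGen.rel _ _ ⟨Z, c, hb, A.low Z (by omega)⟩⟩
  | refl X => exact ⟨rfl, fun _ => Relation.EqvGen.refl _⟩
  | symm X Y _ ih =>
    exact ⟨ih.1.symm, fun h => Relation.EqvGen.symm _ _ (ih.2 (by omega))⟩
  | trans X Y Z _ _ ih ih' =>
    exact ⟨ih.1.trans ih'.1, fun h => Relation.EqvGen.trans _ _ _ (ih.2 h) (ih'.2 (by omega))⟩

/-- The members of the class satisfy Dubrovin's equivalence. -/
theorem cls_dichotomy (A : AtomFacts W) (D : DimFacts W) (E : DerivedFacts W)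
    (P : ProductFacts W) {X : W.V} (h : Cls W X) : (W.SS X ∧ W.FEC X) ∨ W.off X ≠ 0 := by
  classical
  induction h with
  | base X h h' => exact Or.inl ⟨h, h'⟩
  | off X h => exact Or.inr h
  | blow X Y Z c hb _ _ ihY ihZ =>
    have hc := (D.1 X Y Z c hb).1
    have ho := off_blow A hb
    rcases ihY with ⟨h1, h2⟩ | h1
    · rcases ihZ with ⟨h3, h4⟩ | h3
      · refine Or.inl ⟨?_, E.blow X Y Z c hb h2 h4⟩
        rw [A.ss, A.blow X Y Z c hb]
        intro a ha
        rcases Multiset.mem_add.1 ha with ha | ha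
        · exact (A.ss Y).1 h1 a ha
        · exact (A.ss Z).1 h3 a (Multiset.mem_of_mem_nsmul ha)
      · right
        rw [ho]
        have : 0 < (c - 1) * W.off Z := Nat.mul_pos (by omega) (Nat.pos_of_ne_zero h3)
        omega
    · right
      rw [ho]
      omega
  | bun X Y r hb _ ih =>
    have hr := D.2.1 X Y r hb
    rcases ih with ⟨h1, h2⟩ | h1
    · refine Or.inl ⟨?_, E.bun X Y r hb h2⟩
      rw [A.ss, A.bun X Y r hb]
      intro a ha
      exact (A.ss Y).1 h1 a (Multiset.mem_of_mem_nsmul ha)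
    · right
      rw [off_bun A hb]
      have : 0 < r * W.off Y := Nat.mul_pos (by omega) (Nat.pos_of_ne_zero h1)
      omega
  | prod X Y _ _ ih ih' =>
    rcases ih with ⟨h1, h2⟩ | h1
    · rcases ih' with ⟨h3, h4⟩ | h3
      · exact Or.inl ⟨P.ss X Y h1 h3, E.prod X Y h2 h4⟩
      · exact Or.inr (P.off X Y (Or.inr h3))
    · exact Or.inr (P.off X Y (Or.inl h1))

theorem cls_equiv (A : AtomFacts W) (D : DimFacts W) (E : DerivedFacts W)
    (P : ProductFacts W) {X : W.V} (h : Cls W X) :
    (W.SS X ↔ W.FEC X) ∧ (W.SS X ↔ W.off X = 0) := by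
  rcases cls_dichotomy A D E P h with ⟨h1, h2⟩ | h1
  · exact ⟨⟨fun _ => h2, fun _ => h1⟩, ⟨fun h => off_of_ss A h, fun _ => h1⟩⟩
  · exact ⟨⟨fun h => absurd (off_of_ss A h) h1, fun h => absurd (E.off X h) h1⟩,
      ⟨fun h => absurd (off_of_ss A h) h1, fun h => absurd h h1⟩⟩

/-- Tamely equivalent varieties, one of them with semisimple quantum cohomology. -/
theorem tame_main (A : AtomFacts W) (E : DerivedFacts W) {X Y : W.V} (h : TameEquiv W X Y) :
    residual W X = residual W Y ∧ (W.off X = 0 → W.off Y = 0 → (W.SS X ↔ W.SS Y)) ∧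
      (W.SS Y → (W.SS X ↔ W.off X = 0) ∧ (W.FEC X → W.SS X)) := by
  have hr := residual_inv A h
  refine ⟨hr, ?_, ?_⟩
  · intro hX hY
    rw [ss_iff A X, ss_iff A Y, hr]
    tauto
  · intro hY
    have h0 : residual W X = 0 := by
      rw [hr]
      exact ((ss_iff A Y).1 hY).2
    have h1 : W.SS X ↔ W.off X = 0 := by
      rw [ss_iff A X]
      exact ⟨fun h => h.1, fun h => ⟨h, h0⟩⟩
    exact ⟨h1, fun hF => h1.2 (E.off X hF)⟩

theorem birational_main (A : AtomFacts W) (D : DimFacts W) (G : GeometricFacts W) {X Y : W.V}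
    (hd : W.dim X ≤ 3) (h : W.Bir X Y) : TameEquiv W X Y :=
  (wf_low A D (G.wf X Y h)).2 hd

theorem rational_main (A : AtomFacts W) (D : DimFacts W) (E : DerivedFacts W)
    (G : GeometricFacts W) {X : W.V} (hd : W.dim X ≤ 3) (h : Rational W X) :
    (W.SS X ↔ W.off X = 0) ∧ (W.FEC X → W.SS X) :=
  (tame_main A E (birational_main A D G hd h)).2.2 (G.ss_proj _)

theorem fano_main (A : AtomFacts W) (D : DimFacts W) (E : DerivedFacts W) (P : ProductFacts W)
    (G : GeometricFacts W) {X : W.V} (hF : W.Fano X)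
    (h : W.dim X = 3 ∨ (W.dim X = 4 ∧ 12 < W.b2 X)) : W.SS X ↔ W.FEC X := by
  rcases h with h | ⟨h, h'⟩
  · constructor
    · intro hs
      exact G.fano3_fec X hF h (off_of_ss A hs)
    · intro hE
      exact (rational_main A D E G (by omega)
        (G.fano3_rational X hF h (E.off X hE))).2 hE
  · obtain ⟨S, T, rfl, hS, hS', hT, hT'⟩ := G.casagrande X hF h h'
    obtain ⟨h1, h2⟩ := G.dp S hS hS'
    obtain ⟨h3, h4⟩ := G.dp T hT hT'
    exact ⟨fun _ => E.prod S T h2 h4, fun _ => P.ss S T h1 h3⟩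

theorem tame_of_residual {Z : W.V} (h : residual W Z = 0) : Tame W Z := by
  classical
  intro a ha
  unfold residual at h
  rw [Multiset.filter_eq_nil] at h
  have h1 := h a ha
  by_cases h2 : W.rk a = 1
  · exact Or.inl h2
  · exact Or.inr (Nat.pos_of_ne_zero (fun h3 => h1 ⟨h2, h3⟩))

theorem mem_residual {X : W.V} {a : W.Atom} :
    a ∈ residual W X ↔ a ∈ W.atoms X ∧ W.rk a ≠ 1 ∧ W.offA a = 0 := by
  classical
  unfold residual
  exact Multiset.mem_filter

/-- A residual atom of a surface is the atom of a minimal surface with nef canonical bundle and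
`p_g = q = 0`. -/
theorem surf_residual (A : AtomFacts W) (D : DimFacts W) (G : GeometricFacts W) {S : W.V}
    (hS : W.dim S = 2) : ∀ a ∈ residual W S, IsMinAtom W a ∧ W.off S = 0 := by
  classical
  obtain ⟨S0, hc, h0⟩ := G.surf S hS
  obtain ⟨hd, ht⟩ := wf_low A D hc
  have hT := ht (by omega)
  have hr := residual_inv A hT
  intro a ha
  have hoff : W.off S = W.off S0 := by
    have key : ∀ X Y, Relation.EqvGen (IsBlowup W) X Y → W.dim X = W.dim Y ∧
        (W.dim X = 2 → W.off X = W.off Y) := by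
      intro X Y h
      induction h with
      | rel X Y h =>
        obtain ⟨Z, c, hb⟩ := h
        obtain ⟨h1, h2, h3⟩ := D.1 X Y Z c hb
        refine ⟨h3, fun h4 => ?_⟩
        have hZ : W.dim Z = 0 := by omega
        rw [off_blow A hb, A.pt Z hZ]
        simp
      | refl X => exact ⟨rfl, fun _ => rfl⟩
      | symm X Y _ ih => exact ⟨ih.1.symm, fun h => (ih.2 (by omega)).symm⟩
      | trans X Y Z _ _ ih ih' =>
        exact ⟨ih.1.trans ih'.1, fun h => (ih.2 h).trans (ih'.2 (by omega))⟩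
    exact (key S S0 hc).2 hS
  rw [hr] at ha
  rcases h0 with h0 | ⟨C, hC, hb⟩ | h0
  · exfalso
    have h1 := ((ss_iff A S0).1 (by rw [h0]; exact G.ss_proj 2)).2
    rw [h1] at ha
    exact Multiset.notMem_zero a ha
  · exfalso
    obtain ⟨h1, h2, h3⟩ := mem_residual.1 ha
    rw [A.bun S0 C 2 hb] at h1
    rcases A.low C (by omega) a (Multiset.mem_of_mem_nsmul h1) with h4 | h4
    · exact h2 h4
    · omega
  · obtain ⟨h1, h2, h3⟩ := mem_residual.1 ha
    obtain ⟨b, hb, _⟩ := A.nef S0 h0 (by omega)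
    have hab : a = b := by
      rw [hb] at h1
      exact Multiset.mem_singleton.1 h1
    have hoff0 : W.off S0 = 0 := by
      rw [A.hodge S0, hb]
      simp [← hab, h3]
    exact ⟨⟨S0, by omega, h0, hoff0, by rw [hb, hab]; exact Multiset.mem_singleton_self b⟩,
      by rw [hoff, hoff0]⟩

/-- Surfaces with `p_g ≠ 0` or `q ≠ 0` and surfaces birational to one with semisimple quantum
cohomology are tame. -/
theorem surf_tame (A : AtomFacts W) (D : DimFacts W) (G : GeometricFacts W) {S : W.V}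
    (hS : W.dim S = 2) (h : W.off S ≠ 0 ∨ Rational W S) : Tame W S := by
  classical
  refine tame_of_residual ?_
  rcases h with h | h
  · refine Multiset.eq_zero_of_forall_notMem (fun a ha => ?_)
    exact h (surf_residual A D G hS a ha).2
  · rw [residual_inv A (birational_main A D G (by omega) h)]
    exact ((ss_iff A _).1 (G.ss_proj _)).2

theorem residual_blow' (A : AtomFacts W) {X Y Z : W.V} {c : ℕ} (h : W.blow X Y Z c) :
    residual W X = residual W Y + (c - 1) • residual W Z := by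
  classical
  unfold residual
  rw [A.blow X Y Z c h, Multiset.filter_add, Multiset.filter_nsmul]

theorem four_chain (A : AtomFacts W) (D : DimFacts W) (G : GeometricFacts W) {X Y : W.V}
    (h : Relation.EqvGen (IsBlowup W) X Y) : W.dim X = W.dim Y ∧ (W.dim X ≤ 4 → ∀ a,
      ¬ IsMinAtom W a → (a ∈ residual W X ↔ a ∈ residual W Y)) := by
  classical
  induction h with
  | rel X Y h =>
    obtain ⟨Z, c, hb⟩ := h
    obtain ⟨h1, h2, h3⟩ := D.1 X Y Z c hb
    refine ⟨h3, fun h4 a ha => ?_⟩
    rw [residual_blow' A hb, Multiset.mem_add]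
    constructor
    · rintro (h5 | h5)
      · exact h5
      · exfalso
        have h6 := Multiset.mem_of_mem_nsmul h5
        rcases Nat.lt_or_ge (W.dim Z) 2 with h7 | h7
        · rw [residual_tame (A.low Z (by omega))] at h6
          exact Multiset.notMem_zero a h6
        · exact ha (surf_residual A D G (by omega) a h6).1
    · exact Or.inl
  | refl X => exact ⟨rfl, fun _ _ _ => Iff.rfl⟩
  | symm X Y _ ih => exact ⟨ih.1.symm, fun h a ha => (ih.2 (by omega) a ha).symm⟩
  | trans X Y Z _ _ ih ih' =>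
    exact ⟨ih.1.trans ih'.1, fun h a ha => (ih.2 h a ha).trans (ih'.2 (by omega) a ha)⟩

/-- **Fourfolds.** -/
theorem four_main (A : AtomFacts W) (D : DimFacts W) (E : DerivedFacts W) (G : GeometricFacts W)
    {X Y : W.V} (hd : W.dim X ≤ 4) (h : W.Bir X Y) (hY : W.SS Y) :
    (W.SS X ↔ W.off X = 0 ∧ ∀ a ∈ W.atoms X, ¬ IsMinAtom W a) ∧
      (W.FEC X → (∀ a ∈ W.atoms X, ¬ IsMinAtom W a) → W.SS X) := by
  classical
  have h1 : W.SS X ↔ W.off X = 0 ∧ ∀ a ∈ W.atoms X, ¬ IsMinAtom W a := by
    constructor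
    · intro hs
      refine ⟨off_of_ss A hs, ?_⟩
      rintro a ha ⟨S, hS, hK, _, haS⟩
      obtain ⟨b, hb, hb'⟩ := A.nef S hK (by omega)
      rw [hb] at haS
      rw [Multiset.mem_singleton] at haS
      exact hb' (haS ▸ (A.ss X).1 hs a ha)
    · rintro ⟨h0, hm⟩
      rw [ss_iff A X]
      refine ⟨h0, Multiset.eq_zero_of_forall_notMem (fun a ha => ?_)⟩
      have h2 := ((four_chain A D G (G.wf X Y h)).2 hd a (hm a (mem_residual.1 ha).1)).1 ha
      rw [((ss_iff A Y).1 hY).2] at h2
      exact Multiset.notMem_zero a h2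
  exact ⟨h1, fun hF hm => h1.2 ⟨E.off X hF, hm⟩⟩

/-- Varieties with nef canonical bundle and a Hodge number off the diagonal are tame. -/
theorem nef_tame (A : AtomFacts W) {Z : W.V} (h : W.KNef Z) (h' : W.off Z ≠ 0) : Tame W Z := by
  have hd : 0 < W.dim Z := by
    by_contra hd
    exact h' (A.pt Z (by omega))
  obtain ⟨a, ha, _⟩ := A.nef Z h hd
  intro b hb
  rw [ha, Multiset.mem_singleton] at hb
  right
  have h1 := A.hodge Z
  rw [ha] at h1
  simp only [Multiset.map_singleton, Multiset.sum_singleton] at h1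
  rw [hb, ← h1]
  exact Nat.pos_of_ne_zero h'

/-- Birational varieties of dimension at most three. -/
theorem threefolds (K : Known W) {X Y : W.V} (hd : W.dim X ≤ 3) (h : W.Bir X Y) :
    residual W X = residual W Y ∧ (W.off X = 0 → W.off Y = 0 → (W.SS X ↔ W.SS Y)) ∧
      (W.SS Y → (W.SS X ↔ W.off X = 0) ∧ (W.FEC X → W.SS X)) :=
  tame_main K.atoms K.derived (birational_main K.atoms K.dim K.geom hd h)

end Run7.H457.DB
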