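import Mathlib
import Pool.Agent.Run7.h457.DB.CDefs
import Pool.Agent.Run7.h457.DB.Core
import Pool.Agent.Run7.h848.Iso

namespace Run7.H457.DB

open Pool.Agent.H109R2.Witt Run7.h848

variable {W : World} {C : Cub W}

/-- A chain of blow-ups and blow-downs in dimension `n` does not change the occurrence of an atom
which does not occur in dimension at most `n - 2`. -/
theorem chain_mem (A : AtomFacts W) (D : DimFacts W) {n : ℕ} {a : W.Atom}
    (ha : ∀ Z, W.dim Z + 2 ≤ n → a ∉ W.atoms Z) {X Y : W.V}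
    (h : Relation.EqvGen (IsBlowup W) X Y) :
    W.dim X = W.dim Y ∧ (W.dim X = n → (a ∈ W.atoms X ↔ a ∈ W.atoms Y)) := by
  induction h with
  | rel X Y h =>
    obtain ⟨Z, c, hb⟩ := h
    obtain ⟨h1, h2, h3⟩ := D.1 X Y Z c hb
    refine ⟨h3, fun h4 => ?_⟩
    rw [A.blow X Y Z c hb, Multiset.mem_add]
    constructor
    · rintro (h5 | h5)
      · exact h5
      · exact absurd (Multiset.mem_of_mem_nsmul h5) (ha Z (by omega))
    · exact Or.inl
  | refl X => exact ⟨rfl, fun _ => Iff.rfl⟩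
  | symm X Y _ ih => exact ⟨ih.1.symm, fun h => (ih.2 (by omega)).symm⟩
  | trans X Y Z _ _ ih ih' =>
    exact ⟨ih.1.trans ih'.1, fun h => (ih.2 h).trans (ih'.2 (by omega))⟩

/-- An atom with `p2 = 1` of a surface is the atom of a minimal surface. -/
theorem surf_atom (K : KnownCubic C) {S : W.V} (hS : W.dim S ≤ 2) {a : W.Atom}
    (ha : a ∈ W.atoms S) (h1 : C.p2 a = 1) : ∃ S0, IsMin C S0 ∧ W.atoms S0 = {a} := by
  have hd : W.dim S = 2 := by
    by_contra hd
    have := K.hodge.low S (by omega) a ha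
    omega
  obtain ⟨S0, hc, h0⟩ := K.geom.surf S hd
  obtain ⟨h2, h3⟩ := chain_mem K.atoms K.dim (n := 2) (a := a) (fun Z hZ hm => by
    have := K.hodge.low Z (by omega) a hm
    omega) hc
  have h4 := (h3 hd).1 ha
  rcases h0 with h0 | ⟨c, hC, hb⟩ | h0
  · rw [h0] at h4
    have := K.hodge.proj 2 a h4
    omega
  · rw [K.atoms.bun S0 c 2 hb] at h4
    have := K.hodge.low c (by omega) a (Multiset.mem_of_mem_nsmul h4)
    omega
  · obtain ⟨b, hb, hb', _⟩ := K.hodge.nef S0 (by omega) h0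
    have hab : a = b := by
      rw [hb] at h4
      exact Multiset.mem_singleton.1 h4
    subst hab
    exact ⟨S0, ⟨by omega, h0, by omega⟩, hb⟩

/-- **Rational cubic fourfolds.** -/
theorem rational_cubic (K : KnownCubic C) {X : W.V} (hX : C.IsCubic X) (h : Rational W X) :
    ∃ S, IsMin C S ∧ C.T X = C.T S ∧ C.rho S + C.K2 S + 1 ≤ C.rA X ∧ 1 ≤ C.rho S := by
  obtain ⟨hd, ⟨a, ha, h1, ht⟩, hr⟩ := K.hodge.cubic X hX
  by_cases hS : ∃ Z, W.dim Z ≤ 2 ∧ a ∈ W.atoms Z
  · obtain ⟨Z, hZ, haZ⟩ := hS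
    obtain ⟨S, hS, hSa⟩ := surf_atom K hZ haZ h1
    obtain ⟨b, hb, _, hb'⟩ := K.hodge.nef S hS.1 hS.2.1
    have hab : a = b := by
      rw [hb] at hSa
      exact (Multiset.singleton_inj.1 hSa).symm
    have hT : C.T X = C.T S := K.hodge.uniq a _ _ h1 ht (hab ▸ hb' hS.2.2)
    obtain ⟨h5, h6⟩ := K.surf.noether S hS
    rw [← hT] at h5
    exact ⟨S, hS, hT, by omega, h6⟩
  · exfalso
    have hc := K.geom.wf X _ h
    obtain ⟨_, h3⟩ := chain_mem K.atoms K.dim (n := 4) (a := a)
      (fun Z hZ hm => hS ⟨Z, by omega, hm⟩) hc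
    have := K.hodge.proj _ a ((h3 hd).1 ha)
    omega

theorem rank_two (K : KnownCubic C) {X : W.V} (hX : C.IsCubic X) (h : Rational W X)
    (h2 : C.rA X = 2) : ∃ S, C.IsK3 S ∧ C.rho S = 1 ∧ C.T X = C.T S := by
  obtain ⟨S, hS, hT, h5, h6⟩ := rational_cubic K hX h
  obtain ⟨_, _, hr⟩ := K.hodge.cubic X hX
  rw [hT] at hr
  exact ⟨S, K.surf.k3 S hS (by omega) (by omega) (by omega), by omega, hT⟩

/-! ### The quadratic forms -/

theorem csum_of_isom {ι κ : Type} [Fintype ι] [Fintype κ] {w : ι → ℚ} {u : κ → ℚ}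
    (h : Isom w u) (hw : ∀ i, w i ≠ 0) (hu : ∀ j, u j ≠ 0) :
    csum (Finset.univ.val.map w) = csum (Finset.univ.val.map u) := by
  obtain ⟨hc, f, hf⟩ := h
  have h1 := MM_graph hc.le f hf
  have h2 : csum (Finset.univ.val.map w + (Finset.univ.val.map u).map (fun a => -a)) = 0 := by
    rw [csum_eq_zero]
    · exact h1
    · simp only [Multiset.mem_add, Multiset.mem_map, not_or, not_exists, not_and]
      refine ⟨fun i _ h => hw i h, ?_⟩
      rintro _ ⟨j, _, rfl⟩ h
      exact hu j (neg_eq_zero.1 h)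
  rw [csum_add, csum_neg] at h2
  exact sub_eq_zero.1 (by rw [sub_eq_add_neg]; exact h2)

theorem isom_smul {ι κ : Type} [Fintype ι] [Fintype κ] {w : ι → ℚ} {u : κ → ℚ}
    (h : Isom w u) (c : ℚ) : Isom (fun i => c * w i) (fun j => c * u j) := by
  obtain ⟨hc, f, hf⟩ := h
  refine ⟨hc, f, fun y z => ?_⟩
  have := hf y z
  simp only [mul_assoc, ← Finset.mul_sum] at this ⊢
  rw [this]

/-- Four times a positive rational number. -/
theorem four_cz {c : ℚ} (hc : 0 < c) : (4 : ℕ) • cz c = (4 : ℕ) • cz (1 : ℚ) := by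
  obtain ⟨x, y, z, t, h⟩ := Nat.sum_four_squares (c.num.toNat * c.den)
  have hn : (c.num.toNat : ℚ) = c.num := by
    have : ((c.num.toNat : ℤ) : ℚ) = (c.num : ℚ) := by
      rw [Int.toNat_of_nonneg (Rat.num_pos.2 hc).le]
    exact_mod_cast this
  have hd : (c.den : ℚ) ≠ 0 := by exact_mod_cast c.den_ne_zero
  have hq : (x : ℚ) ^ 2 + (y : ℚ) ^ 2 + (z : ℚ) ^ 2 + (t : ℚ) ^ 2 = c * (c.den : ℚ) ^ 2 := by
    have h1 : ((x ^ 2 + y ^ 2 + z ^ 2 + t ^ 2 : ℕ) : ℚ) = ((c.num.toNat * c.den : ℕ) : ℚ) := by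
      rw [h]
    push_cast at h1
    rw [h1, hn]
    have h2 : (c.num : ℚ) = c * c.den := by
      rw [Rat.mul_den_eq_num]
    rw [h2]
    ring
  set d : ℚ := (c.den : ℚ)
  have hT : (!![(x : ℚ) / d, y / d, z / d, t / d; -(y / d), x / d, -(t / d), z / d;
      -(z / d), t / d, x / d, -(y / d); -(t / d), -(z / d), y / d, x / d] :
      Matrix (Fin 4) (Fin 4) ℚ) * (!![(x : ℚ) / d, y / d, z / d, t / d; -(y / d), x / d, -(t / d),
      z / d; -(z / d), t / d, x / d, -(y / d); -(t / d), -(z / d), y / d, x / d] :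
      Matrix (Fin 4) (Fin 4) ℚ).transpose = c • (1 : Matrix (Fin 4) (Fin 4) ℚ) := by
    have hc2 : c = (x : ℚ) / d * (x / d) + y / d * (y / d) + z / d * (z / d) + t / d * (t / d) := by
      field_simp
      linarith [hq]
    ext i j
    fin_cases i <;> fin_cases j <;>
      simp [Matrix.mul_apply, Fin.sum_univ_four, Matrix.transpose_apply, Matrix.one_apply] <;>
      first
        | linarith [hc2]
        | ring
  have h3 := MM_sim (1 : ℚ) c _ hT
  rw [one_mul] at h3
  have h4 : csum (Multiset.replicate 4 (1 : ℚ) + Multiset.replicate 4 (-c)) = 0 := by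
    rw [csum_eq_zero]
    · exact h3
    · simp only [Multiset.mem_add, not_or]
      refine ⟨fun h => ?_, fun h => ?_⟩
      · have := Multiset.eq_of_mem_replicate h
        norm_num at this
      · have := Multiset.eq_of_mem_replicate h
        linarith
  rw [csum_add] at h4
  unfold csum at h4
  rw [Multiset.map_replicate, Multiset.map_replicate, Multiset.sum_replicate,
    Multiset.sum_replicate, cz_neg, smul_neg] at h4
  exact (sub_eq_zero.1 (by rw [sub_eq_add_neg]; exact h4)).symm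

theorem three_cz (c : ℚ) : (3 : ℕ) • cz c = cz (2 * c) + cz (3 * c) + cz (6 * c) := by
  have h1 : cz c + cz c = cz (2 * c) + cz (2 * c) := by
    rw [cz_add c c]
    by_cases hc : c = 0
    · subst hc
      simp [cz_zero]
    · have e1 : c + c = 2 * c := by ring
      have e2 : c * c * (c + c) = 2 * c * c ^ 2 := by ring
      rw [e2, e1, cz_sq _ _ hc]
  have h2 : cz (3 * c) + cz (6 * c) = cz c + cz (2 * c) := by
    rw [cz_add (3 * c) (6 * c)]
    by_cases hc : c = 0
    · subst hc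
      simp [cz_zero]
    · have e1 : 3 * c + 6 * c = c * 3 ^ 2 := by ring
      have e2 : 3 * c * (6 * c) * (3 * c + 6 * c) = 2 * c * (9 * c) ^ 2 := by ring
      rw [e2, e1, cz_sq _ _ (by norm_num), cz_sq _ _ (mul_ne_zero (by norm_num) hc)]
  calc (3 : ℕ) • cz c = cz c + cz c + cz c := by rw [succ_nsmul, two_nsmul]
    _ = cz (2 * c) + (cz c + cz (2 * c)) := by rw [h1]; abel
    _ = cz (2 * c) + (cz (3 * c) + cz (6 * c)) := by rw [h2]
    _ = _ := by abel

/-- **The arithmetic of the discriminant.** -/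
theorem norm_of_forms {x y : Fin 21 → ℚ} {d k c : ℚ} (hd : 0 < d) (hk : 0 < k) (hc : 0 < c)
    (hx : ∀ i, x i ≠ 0) (hy : ∀ i, y i ≠ 0)
    (h1 : Isom (Sum.elim x ![-3, -(3 * d)]) (Sum.elim (fun _ : Fin 21 => (-1 : ℚ)) ![1, 1]))
    (h2 : Isom (Sum.elim y ![2 * k]) (Sum.elim (fun _ : Fin 19 => (-1 : ℚ)) ![1, 1, 1]))
    (h3 : Isom y (fun i => c * x i)) : ∃ a b : ℚ, d = 2 * (a ^ 2 + 3 * b ^ 2) := by
  have hc0 : c ≠ 0 := hc.ne'
  -- the Witt classes
  have e1 := csum_of_isom (isom_smul h1 c) (by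
      rintro (i | i)
      · exact mul_ne_zero hc0 (hx i)
      · fin_cases i
        · simp [hc0]
        · simp [hc0, hd.ne'])
    (by
      rintro (i | i)
      · simp [hc0]
      · fin_cases i <;> simp [hc0])
  have e2 := csum_of_isom h2 (by
      rintro (i | i)
      · exact hy i
      · fin_cases i
        simp [hk.ne'])
    (by
      rintro (i | i)
      · simp
      · fin_cases i <;> simp)
  have e3 := csum_of_isom h3 hy (fun i => mul_ne_zero hc0 (hx i))
  have m1 : Finset.univ.val.map (fun i => c * (Sum.elim x ![-3, -(3 * d)]) i) =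
      Finset.univ.val.map (fun i => c * x i) + {-(3 * c), -(3 * d * c)} := by
    have : (fun i => c * (Sum.elim x ![-3, -(3 * d)]) i) =
        Sum.elim (fun i => c * x i) ![-(3 * c), -(3 * d * c)] := by
      funext i
      rcases i with i | i
      · rfl
      · fin_cases i
        · simp <;> ring
        · simp <;> ring
    rw [this, map_sumElim]
    congr 1
  have m2 : Finset.univ.val.map (fun i => c * (Sum.elim (fun _ : Fin 21 => (-1 : ℚ)) ![1, 1]) i) =
      Multiset.replicate 21 (-c) + {c, c} := by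
    have : (fun i => c * (Sum.elim (fun _ : Fin 21 => (-1 : ℚ)) ![1, 1]) i) =
        Sum.elim (fun _ : Fin 21 => -c) ![c, c] := by
      funext i
      rcases i with i | i
      · simp
      · fin_cases i <;> simp
    rw [this, map_sumElim]
    congr 1
    all_goals first
      | (rw [Multiset.map_const']; simp; done)
      | (rw [Fin.univ_val_map]; rfl)
  have m3 : Finset.univ.val.map (Sum.elim y ![2 * k]) = Finset.univ.val.map y + {2 * k} := by
    rw [map_sumElim]
    congr 1
  have m4 : Finset.univ.val.map (Sum.elim (fun _ : Fin 19 => (-1 : ℚ)) ![1, 1, 1]) =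
      Multiset.replicate 19 (-1) + {1, 1, 1} := by
    rw [map_sumElim]
    congr 1
    all_goals first
      | (rw [Multiset.map_const']; simp; done)
      | (rw [Fin.univ_val_map]; rfl)
  rw [m1, m2] at e1
  rw [m3, m4] at e2
  rw [csum_add, csum_add, ← e3] at e1
  rw [csum_add, csum_add] at e2
  have c1 : csum ({-(3 * c), -(3 * d * c)} : Multiset ℚ) = -cz (3 * c) - cz (3 * d * c) := by
    unfold csum
    simp [cz_neg, sub_eq_add_neg]
  have c2 : csum (Multiset.replicate 21 (-c)) = -((21 : ℕ) • cz c) := by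
    unfold csum
    rw [Multiset.map_replicate, Multiset.sum_replicate, cz_neg, smul_neg]
  have c3 : csum ({c, c} : Multiset ℚ) = (2 : ℕ) • cz c := by
    unfold csum
    simp [two_nsmul]
  have c4 : csum ({2 * k} : Multiset ℚ) = cz (2 * k) := by
    unfold csum
    simp
  have c5 : csum (Multiset.replicate 19 (-1 : ℚ)) = -((19 : ℕ) • cz 1) := by
    unfold csum
    rw [Multiset.map_replicate, Multiset.sum_replicate, cz_neg, smul_neg]
  have c6 : csum ({1, 1, 1} : Multiset ℚ) = (3 : ℕ) • cz 1 := by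
    unfold csum
    simp
    rw [succ_nsmul, two_nsmul]
    abel
  rw [c1, c2, c3] at e1
  rw [c4, c5, c6] at e2
  have f4 := four_cz hc
  have f3 := three_cz c
  -- `⟨2c, 6c, -3dc, -2k⟩` is metabolic
  have key : cz (2 * c) + cz (6 * c) - cz (3 * d * c) - cz (2 * k) = 0 := by
    have g1 : csum (Finset.univ.val.map y) = cz (3 * c) + cz (3 * d * c) - (21 : ℕ) • cz c +
        (2 : ℕ) • cz c := by
      have : csum (Finset.univ.val.map y) = (csum (Finset.univ.val.map y) +
        (-cz (3 * c) - cz (3 * d * c))) + (cz (3 * c) + cz (3 * d * c)) := by abel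
      rw [this, e1]
      abel
    rw [g1] at e2
    have f16 : (16 : ℕ) • cz c = (16 : ℕ) • cz (1 : ℚ) := by
      have : ∀ z : WG ℚ, (16 : ℕ) • z = (4 : ℕ) • ((4 : ℕ) • z) := by
        intro z
        rw [show (16 : ℕ) = 4 * 4 by norm_num, mul_smul]
      rw [this, this, f4]
    have h5 : cz (2 * c) + cz (6 * c) = (3 : ℕ) • cz c - cz (3 * c) := by
      rw [f3]
      abel
    rw [h5]
    have h6 : (3 : ℕ) • cz c - cz (3 * c) - cz (3 * d * c) - cz (2 * k) =
        -(cz (3 * c) + cz (3 * d * c) - (21 : ℕ) • cz c + (2 : ℕ) • cz c + cz (2 * k)) -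
          (16 : ℕ) • cz c := by
      abel
    rw [h6, e2, f16]
    abel
  have hmet : Met (Sum.elim ![2 * c, 6 * c, -(3 * d * c)] ![-(2 * k)]) := by
    apply Met_of_MM
    rw [← csum_eq_zero]
    · have : Finset.univ.val.map (Sum.elim ![2 * c, 6 * c, -(3 * d * c)] ![-(2 * k)]) =
          {2 * c, 6 * c, -(3 * d * c)} + {-(2 * k)} := by
        rw [map_sumElim]
        congr 1
      rw [this, csum_add]
      unfold csum
      simp only [Multiset.insert_eq_cons, Multiset.map_cons, Multiset.map_singleton,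
        Multiset.sum_cons, Multiset.sum_singleton, cz_neg]
      rw [← key]
      abel
    · intro h
      obtain ⟨i, _, hi⟩ := Multiset.mem_map.1 h
      rcases i with i | i
      · fin_cases i
        · simp [hc0] at hi
        · simp [hc0] at hi
        · simp [hc0, hd.ne'] at hi
      · fin_cases i
        simp [hk.ne'] at hi
  obtain ⟨v, hv, hv0⟩ := isotropic_of_met (by simp) hmet
  rw [Fin.sum_univ_three] at hv0
  simp only [Matrix.cons_val_zero, Matrix.cons_val_one, Matrix.cons_val] at hv0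
  have hv1 : 2 * v 0 ^ 2 + 6 * v 1 ^ 2 = 3 * d * v 2 ^ 2 := by
    have : c * (2 * v 0 ^ 2 + 6 * v 1 ^ 2 - 3 * d * v 2 ^ 2) = 0 := by
      linarith [hv0]
    rcases mul_eq_zero.1 this with h | h
    · exact absurd h hc0
    · linarith
  have hv2 : v 2 ≠ 0 := by
    intro h
    rw [h] at hv1
    have h0 : v 0 = 0 := by nlinarith [sq_nonneg (v 0), sq_nonneg (v 1)]
    have h1 : v 1 = 0 := by nlinarith [sq_nonneg (v 0), sq_nonneg (v 1)]
    apply hv
    funext i
    fin_cases i
    · exact h0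
    · exact h1
    · exact h
  refine ⟨v 1 / v 2, v 0 / (3 * v 2), ?_⟩
  field_simp
  linarith [hv1]

/-- **Rational cubic fourfolds with `A(X)` of rank two.** -/
theorem rank_two_norm (K : KnownCubic C) {X : W.V} (hX : C.IsCubic X) (h : Rational W X)
    (h2 : C.rA X = 2) (hE : C.EndQ (C.T X)) :
    ∃ a b : ℚ, (C.disc X : ℚ) = 2 * (a ^ 2 + 3 * b ^ 2) := by
  obtain ⟨S, hS, hr, hT⟩ := rank_two K hX h h2
  obtain ⟨k1, k2, k3⟩ := K.form.k3 S hS hr
  obtain ⟨d1, d2, d3⟩ := K.form.cubic X hX h2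
  obtain ⟨c, hc, h3⟩ := K.form.prop X S hX h2 hS hr hT hE
  exact norm_of_forms (by exact_mod_cast d1) (by exact_mod_cast k1) hc d2 k2 d3 k3 h3

end Run7.H457.DB
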