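import Mathlib
import Pool.Agent.Run7.h457.DB.CCore
import Pool.Agent.Run7.h457.DB.Norm

namespace Run7.H457.DB

open Pool.Agent.H109R2.Witt Run7.h848

variable {W : World} {C : Cub W}

/-- Gushel-Mukai fourfolds `X` (`IsGM X`); `C.T X`, `C.rA X`, `C.disc X`, `C.q X` are the
transcendental Hodge structure, the rank and the discriminant of `A(X) = H^{2,2}(X) ∩ H⁴(X, ℤ)` and
the weights of `T(X)(-1)` if its rank is 21. Known: `b₄ = 24`, `h^{3,1} = 1`; if `rk A(X) = 3` then
`T(X)(-1) ⊕ ⟨-d⟩ ≅ 2⟨1⟩ ⊕ 20⟨-1⟩` (Debarre, Iliev, Manivel: `H⁴(X, ℤ)` is odd unimodular of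
signature `(22, 2)` and the classes from the Grassmannian form the lattice `⟨2⟩ ⊕ ⟨2⟩`). -/
structure GMFacts (C : Cub W) (IsGM : W.V → Prop) : Prop where
  atom : ∀ X, IsGM X → W.dim X = 4 ∧ (∃ a ∈ W.atoms X, C.p2 a = 1 ∧ C.trans a (C.T X)) ∧
    C.rkH (C.T X) + C.rA X = 24
  form : ∀ X, IsGM X → C.rA X = 3 → 0 < C.disc X ∧ (∀ i, C.q X i ≠ 0) ∧
    Isom (Sum.elim (C.q X) ![-(C.disc X : ℚ)]) (Sum.elim (fun _ : Fin 20 => (-1 : ℚ)) ![1, 1])
  prop : ∀ X S, IsGM X → C.rA X = 3 → C.IsK3 S → C.rho S = 1 → C.T X = C.T S →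
    C.EndQ (C.T X) → ∃ c : ℚ, 0 < c ∧ Isom (C.q S) (fun i => c * C.q X i)

/-- A rational fourfold with an atom of K3 type. -/
theorem rational_fourfold (K : KnownCubic C) {X : W.V} (hd : W.dim X = 4) {a : W.Atom}
    (ha : a ∈ W.atoms X) (h1 : C.p2 a = 1) (ht : C.trans a (C.T X)) (h : Rational W X) :
    ∃ S, IsMin C S ∧ C.T X = C.T S ∧ C.rkH (C.T X) + C.rho S + C.K2 S ≤ 22 ∧ 1 ≤ C.rho S := by
  by_cases hS : ∃ Z, W.dim Z ≤ 2 ∧ a ∈ W.atoms Z
  · obtain ⟨Z, hZ, haZ⟩ := hS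
    obtain ⟨S, hS, hSa⟩ := surf_atom K hZ haZ h1
    obtain ⟨b, hb, _, hb'⟩ := K.hodge.nef S hS.1 hS.2.1
    have hab : a = b := by
      rw [hb] at hSa
      exact (Multiset.singleton_inj.1 hSa).symm
    have hT : C.T X = C.T S := K.hodge.uniq a _ _ h1 ht (hab ▸ hb' hS.2.2)
    obtain ⟨h5, h6⟩ := K.surf.noether S hS
    rw [← hT] at h5
    exact ⟨S, hS, hT, h5, h6⟩
  · exfalso
    have hc := K.geom.wf X _ h
    obtain ⟨_, h3⟩ := chain_mem K.atoms K.dim (n := 4) (a := a)
      (fun Z hZ hm => hS ⟨Z, by omega, hm⟩) hc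
    have := K.hodge.proj _ a ((h3 hd).1 ha)
    omega

variable {IsGM : W.V → Prop}

theorem rational_gm (K : KnownCubic C) (G : GMFacts C IsGM) {X : W.V} (hX : IsGM X)
    (h : Rational W X) :
    ∃ S, IsMin C S ∧ C.T X = C.T S ∧ C.rho S + C.K2 S + 2 ≤ C.rA X ∧ 1 ≤ C.rho S := by
  obtain ⟨hd, ⟨a, ha, h1, ht⟩, hr⟩ := G.atom X hX
  obtain ⟨S, h2, h3, h4, h5⟩ := rational_fourfold K hd ha h1 ht h
  exact ⟨S, h2, h3, by omega, h5⟩

theorem rank_three_gm (K : KnownCubic C) (G : GMFacts C IsGM) {X : W.V} (hX : IsGM X)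
    (h : Rational W X) (h3 : C.rA X = 3) : ∃ S, C.IsK3 S ∧ C.rho S = 1 ∧ C.T X = C.T S := by
  obtain ⟨S, hS, hT, h5, h6⟩ := rational_gm K G hX h
  obtain ⟨_, _, hr⟩ := G.atom X hX
  rw [hT] at hr
  exact ⟨S, K.surf.k3 S hS (by omega) (by omega) (by omega), by omega, hT⟩

/-- The arithmetic of the discriminant. -/
theorem norm_of_forms_gm {x y : Fin 21 → ℚ} {d k c : ℚ} (hd : 0 < d) (hk : 0 < k) (hc : 0 < c)
    (hx : ∀ i, x i ≠ 0) (hy : ∀ i, y i ≠ 0)
    (h1 : Isom (Sum.elim x ![-d]) (Sum.elim (fun _ : Fin 20 => (-1 : ℚ)) ![1, 1]))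
    (h2 : Isom (Sum.elim y ![2 * k]) (Sum.elim (fun _ : Fin 19 => (-1 : ℚ)) ![1, 1, 1]))
    (h3 : Isom y (fun i => c * x i)) : ∃ a b : ℚ, d = a ^ 2 + b ^ 2 := by
  have hc0 : c ≠ 0 := hc.ne'
  have e1 := csum_of_isom (isom_smul h1 c) (by
      rintro (i | i)
      · exact mul_ne_zero hc0 (hx i)
      · fin_cases i
        simp [hc0, hd.ne'])
    (by
      rintro (i | i)
      · simp [hc0]
      · fin_cases i <;> simp [hc0])
  have e2 := csum_of_isom h2 (by
      rintro (i | i)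
      · exact hy i
      · fin_cases i
        simp [hk.ne'])
    (by
      rintro (i | i)
      · simp
      · fin_cases i <;> simp)
  have e3 := csum_of_isom h3 hy (fun i => mul_ne_zero hc0 (hx i))
  have m1 : Finset.univ.val.map (fun i => c * (Sum.elim x ![-d]) i) =
      Finset.univ.val.map (fun i => c * x i) + {-(d * c)} := by
    have : (fun i => c * (Sum.elim x ![-d]) i) =
        Sum.elim (fun i => c * x i) ![-(d * c)] := by
      funext i
      rcases i with i | i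
      · rfl
      · fin_cases i
        simp
        ring
    rw [this, map_sumElim]
    congr 1
  have m2 : Finset.univ.val.map (fun i => c * (Sum.elim (fun _ : Fin 20 => (-1 : ℚ)) ![1, 1]) i) =
      Multiset.replicate 20 (-c) + {c, c} := by
    have : (fun i => c * (Sum.elim (fun _ : Fin 20 => (-1 : ℚ)) ![1, 1]) i) =
        Sum.elim (fun _ : Fin 20 => -c) ![c, c] := by
      funext i
      rcases i with i | i
      · simp
      · fin_cases i <;> simp
    rw [this, map_sumElim]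
    congr 1
  have m3 : Finset.univ.val.map (Sum.elim y ![2 * k]) = Finset.univ.val.map y + {2 * k} := by
    rw [map_sumElim]
    congr 1
  have m4 : Finset.univ.val.map (Sum.elim (fun _ : Fin 19 => (-1 : ℚ)) ![1, 1, 1]) =
      Multiset.replicate 19 (-1) + {1, 1, 1} := by
    rw [map_sumElim]
    congr 1
  rw [m1, m2] at e1
  rw [m3, m4] at e2
  rw [csum_add, csum_add, ← e3] at e1
  rw [csum_add, csum_add] at e2
  have c1 : csum ({-(d * c)} : Multiset ℚ) = -cz (d * c) := by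
    unfold csum
    simp [cz_neg]
  have c2 : csum (Multiset.replicate 20 (-c)) = -((20 : ℕ) • cz c) := by
    unfold csum
    rw [Multiset.map_replicate, Multiset.sum_replicate, cz_neg, smul_neg]
  have c3 : csum ({c, c} : Multiset ℚ) = (2 : ℕ) • cz c := by
    unfold csum
    simp [two_nsmul]
  have c4 : csum ({2 * k} : Multiset ℚ) = cz (2 * k) := by
    unfold csum
    simp
  have c5 : csum (Multiset.replicate 19 (-1 : ℚ)) = -((19 : ℕ) • cz 1) := by
    unfold csum
    rw [Multiset.map_replicate, Multiset.sum_replicate, cz_neg, smul_neg]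
  have c6 : csum ({1, 1, 1} : Multiset ℚ) = (3 : ℕ) • cz 1 := by
    unfold csum
    simp
    rw [succ_nsmul, two_nsmul]
    abel
  rw [c1, c2, c3] at e1
  rw [c4, c5, c6] at e2
  have f4 := four_cz hc
  have key : cz c + cz c - cz (d * c) - cz (2 * k) = 0 := by
    have g1 : csum (Finset.univ.val.map y) = cz (d * c) - (20 : ℕ) • cz c + (2 : ℕ) • cz c := by
      have : csum (Finset.univ.val.map y) = (csum (Finset.univ.val.map y) + -cz (d * c)) +
        cz (d * c) := by abel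
      rw [this, e1]
      abel
    rw [g1] at e2
    have f16 : (16 : ℕ) • cz c = (16 : ℕ) • cz (1 : ℚ) := by
      have : ∀ z : WG ℚ, (16 : ℕ) • z = (4 : ℕ) • ((4 : ℕ) • z) := by
        intro z
        rw [show (16 : ℕ) = 4 * 4 by norm_num, mul_smul]
      rw [this, this, f4]
    have h6 : cz c + cz c - cz (d * c) - cz (2 * k) =
        -(cz (d * c) - (20 : ℕ) • cz c + (2 : ℕ) • cz c + cz (2 * k)) - (16 : ℕ) • cz c := by
      abel
    rw [h6, e2, f16]
    abel
  have hmet : Met (Sum.elim ![c, c, -(d * c)] ![-(2 * k)]) := by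
    apply Met_of_MM
    rw [← csum_eq_zero]
    · have : Finset.univ.val.map (Sum.elim ![c, c, -(d * c)] ![-(2 * k)]) =
          {c, c, -(d * c)} + {-(2 * k)} := by
        rw [map_sumElim]
        congr 1
      rw [this, csum_add]
      unfold csum
      simp only [Multiset.insert_eq_cons, Multiset.map_cons, Multiset.map_singleton,
        Multiset.sum_cons, Multiset.sum_singleton, cz_neg]
      rw [← key]
      abel
    · intro h
      obtain ⟨i, _, hi⟩ := Multiset.mem_map.1 h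
      rcases i with i | i
      · fin_cases i
        · simp [hc0] at hi
        · simp [hc0] at hi
        · simp [hc0, hd.ne'] at hi
      · fin_cases i
        simp [hk.ne'] at hi
  obtain ⟨v, hv, hv0⟩ := isotropic_of_met (by simp) hmet
  rw [Fin.sum_univ_three] at hv0
  simp only [Matrix.cons_val_zero, Matrix.cons_val_one, Matrix.cons_val] at hv0
  have hv1 : v 0 ^ 2 + v 1 ^ 2 = d * v 2 ^ 2 := by
    have : c * (v 0 ^ 2 + v 1 ^ 2 - d * v 2 ^ 2) = 0 := by
      linarith [hv0]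
    rcases mul_eq_zero.1 this with h | h
    · exact absurd h hc0
    · linarith
  have hv2 : v 2 ≠ 0 := by
    intro h
    rw [h] at hv1
    have h0 : v 0 = 0 := by nlinarith [sq_nonneg (v 0), sq_nonneg (v 1)]
    have h1 : v 1 = 0 := by nlinarith [sq_nonneg (v 0), sq_nonneg (v 1)]
    apply hv
    funext i
    fin_cases i
    · exact h0
    · exact h1
    · exact h
  refine ⟨v 0 / v 2, v 1 / v 2, ?_⟩
  field_simp
  linarith [hv1]

theorem rank_three_norm_gm (K : KnownCubic C) (G : GMFacts C IsGM) {X : W.V} (hX : IsGM X)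
    (h : Rational W X) (h3 : C.rA X = 3) (hE : C.EndQ (C.T X)) :
    ∃ a b : ℚ, (C.disc X : ℚ) = a ^ 2 + b ^ 2 := by
  obtain ⟨S, hS, hr, hT⟩ := rank_three_gm K G hX h h3
  obtain ⟨k1, k2, k3⟩ := K.form.k3 S hS hr
  obtain ⟨d1, d2, d3⟩ := G.form X hX h3
  obtain ⟨c, hc, h4⟩ := G.prop X S hX h3 hS hr hT hE
  exact norm_of_forms_gm (by exact_mod_cast d1) (by exact_mod_cast k1) hc d2 k2 d3 k3 h4

end Run7.H457.DB
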