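import Mathlib
import Pool.Agent.Run7.h457.DB.CCore

namespace Run7.H457.DB

open Pool.Agent.H109R2.Witt Run7.h848

/-- Diagonal rational forms given by their multisets of weights are isometric. -/
def IsomM (s t : Multiset ℚ) : Prop :=
  ∃ (n : ℕ) (w u : Fin n → ℚ), Finset.univ.val.map w = s ∧ Finset.univ.val.map u = t ∧ Isom w u

/-- Diagonalizations over `ℚ`: `qT X` of the form on `T(X)` (with the sign such that it is positive on
the real part of `p - q = ±2`), `qA X` of the intersection form on the orthogonal complement of `h²`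
in `A(X)` for a cubic fourfold `X`, `qN S` of the Neron-Severi lattice of a surface `S`. -/
structure Forms (W : World) where
  qT : W.V → Multiset ℚ
  qA : W.V → Multiset ℚ
  qN : W.V → Multiset ℚ

/-- Known facts on these forms. Surfaces with `p_g = 1` (and nef canonical bundle): the form on
`H²(S, ℚ) = T(S) ⊕ NS(S)` is unimodular of signature `(3, b_2 - 3)`. Cubic fourfolds: the form on
`H⁴(X, ℚ) = T(X) ⊕ ⟨h²⟩ ⊕ A(X)_prim` is unimodular odd of signature `(21, 2)`, `(h²)² = 3`, and
positive definite on `A(X)`. If the endomorphism algebra is `ℚ`, isomorphisms of Hodge structures are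
isometries up to a positive rational factor. -/
structure FormFacts2 {W : World} (C : Cub W) (F : Forms W) : Prop where
  surface : ∀ S, IsMin C S → (0 : ℚ) ∉ F.qT S ∧ (0 : ℚ) ∉ F.qN S ∧
    (F.qT S).card = C.rkH (C.T S) ∧ (F.qN S).card = C.rho S ∧
    IsomM (F.qT S + F.qN S) (Multiset.replicate 3 1 +
      Multiset.replicate (C.rkH (C.T S) + C.rho S - 3) (-1))
  cubic : ∀ X, C.IsCubic X → (0 : ℚ) ∉ F.qT X ∧ (∀ a ∈ F.qA X, 0 < a) ∧
    (F.qA X).card + 1 = C.rA X ∧
    IsomM (F.qT X + ({-3} + (F.qA X).map (fun a => -a)))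
      (Multiset.replicate 2 1 + Multiset.replicate 21 (-1))
  prop : ∀ X S, C.IsCubic X → IsMin C S → C.T X = C.T S → C.EndQ (C.T X) →
    ∃ c : ℚ, 0 < c ∧ IsomM (F.qT S) ((F.qT X).map (fun a => c * a))

theorem csum_isomM {s t : Multiset ℚ} (h : IsomM s t) (hs : (0 : ℚ) ∉ s) (ht : (0 : ℚ) ∉ t) :
    csum s = csum t := by
  obtain ⟨n, w, u, rfl, rfl, h⟩ := h
  refine csum_of_isom h (fun i hi => hs ?_) (fun i hi => ht ?_)
  · exact Multiset.mem_map.2 ⟨i, Finset.mem_univ_val i, hi⟩
  · exact Multiset.mem_map.2 ⟨i, Finset.mem_univ_val i, hi⟩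

theorem isomM_smul {s t : Multiset ℚ} (h : IsomM s t) (c : ℚ) :
    IsomM (s.map fun a => c * a) (t.map fun a => c * a) := by
  obtain ⟨n, w, u, rfl, rfl, h⟩ := h
  refine ⟨n, _, _, ?_, ?_, isom_smul h c⟩
  · rw [Multiset.map_map]; rfl
  · rw [Multiset.map_map]; rfl

theorem csum_replicate (n : ℕ) (a : ℚ) : csum (Multiset.replicate n a) = n • cz a := by
  unfold csum
  rw [Multiset.map_replicate, Multiset.sum_replicate]

/-- **The general statement on forms.** -/
theorem isotropic_of_forms {X Y A N : Multiset ℚ} {b : ℕ} {c : ℚ} (hc : 0 < c)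
    (hX : (0 : ℚ) ∉ X) (hY : (0 : ℚ) ∉ Y) (hA : ∀ a ∈ A, 0 < a) (hN : (0 : ℚ) ∉ N)
    (hb : 3 ≤ b) (hb' : b ≤ 22) (hcard : N.card + (22 - b) < 2 + A.card)
    (h1 : IsomM (X + ({-3} + A.map (fun a => -a)))
      (Multiset.replicate 2 1 + Multiset.replicate 21 (-1)))
    (h2 : IsomM (Y + N) (Multiset.replicate 3 1 + Multiset.replicate (b - 3) (-1)))
    (h3 : IsomM Y (X.map fun a => c * a)) :
    ∃ (n : ℕ) (w : Fin n → ℚ), Finset.univ.val.map w = A ∧
      ∃ (v : Fin n → ℚ) (x y : ℚ), v ≠ 0 ∧ ∑ i, w i * v i ^ 2 = 2 * (x ^ 2 + 3 * y ^ 2) := by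
  have hc0 : c ≠ 0 := hc.ne'
  have hA0 : (0 : ℚ) ∉ A := fun h => lt_irrefl _ (hA 0 h)
  have hcA0 : (0 : ℚ) ∉ A.map (fun a => c * a) := by
    intro h
    obtain ⟨a, ha, h⟩ := Multiset.mem_map.1 h
    exact mul_ne_zero hc0 (hA a ha).ne' h
  have hcX0 : (0 : ℚ) ∉ X.map (fun a => c * a) := by
    intro h
    obtain ⟨a, ha, h⟩ := Multiset.mem_map.1 h
    rcases mul_eq_zero.1 h with h | h
    · exact hc0 h
    · exact hX (h ▸ ha)
  have e1 := csum_isomM (isomM_smul h1 c) (by
      intro h
      obtain ⟨a, ha, h⟩ := Multiset.mem_map.1 h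
      rcases mul_eq_zero.1 h with h | h
      · exact hc0 h
      · subst h
        simp only [Multiset.mem_add, Multiset.mem_singleton, Multiset.mem_map] at ha
        rcases ha with ha | ha | ⟨a, ha, ha'⟩
        · exact hX ha
        · norm_num at ha
        · exact (hA a ha).ne' (neg_eq_zero.1 ha'))
    (by
      intro h
      obtain ⟨a, ha, h⟩ := Multiset.mem_map.1 h
      rcases mul_eq_zero.1 h with h | h
      · exact hc0 h
      · subst h
        rcases Multiset.mem_add.1 ha with ha | ha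
        · exact absurd (Multiset.eq_of_mem_replicate ha) (by norm_num)
        · exact absurd (Multiset.eq_of_mem_replicate ha) (by norm_num))
  have e2 := csum_isomM h2 (by
      intro h
      rcases Multiset.mem_add.1 h with h | h
      · exact hY h
      · exact hN h)
    (by
      intro h
      rcases Multiset.mem_add.1 h with ha | ha
      · exact absurd (Multiset.eq_of_mem_replicate ha) (by norm_num)
      · exact absurd (Multiset.eq_of_mem_replicate ha) (by norm_num))
  have e3 := csum_isomM h3 hY hcX0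
  have m1 : (X + ({-3} + A.map (fun a => -a))).map (fun a => c * a) =
      X.map (fun a => c * a) + ({-(3 * c)} + (A.map (fun a => c * a)).map (fun a => -a)) := by
    rw [Multiset.map_add, Multiset.map_add, Multiset.map_map, Multiset.map_map,
      Multiset.map_singleton]
    congr 2
    · congr 1
      ring
    · refine Multiset.map_congr rfl (fun a _ => ?_)
      simp
  have m2 : (Multiset.replicate 2 (1 : ℚ) + Multiset.replicate 21 (-1)).map (fun a => c * a) =
      Multiset.replicate 2 c + Multiset.replicate 21 (-c) := by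
    rw [Multiset.map_add, Multiset.map_replicate, Multiset.map_replicate]
    simp
  rw [m1, m2, csum_add, csum_add, csum_add, csum_neg, csum_replicate, csum_replicate, ← e3,
    cz_neg] at e1
  rw [csum_add, csum_add, csum_replicate, csum_replicate, cz_neg] at e2
  have c1 : csum ({-(3 * c)} : Multiset ℚ) = -cz (3 * c) := by
    unfold csum
    simp [cz_neg]
  rw [c1] at e1
  have f4 := four_cz hc
  have f3 := three_cz c
  have f16 : (16 : ℕ) • cz c = (16 : ℕ) • cz (1 : ℚ) := by
    have : ∀ z : WG ℚ, (16 : ℕ) • z = (4 : ℕ) • ((4 : ℕ) • z) := by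
      intro z
      rw [show (16 : ℕ) = 4 * 4 by norm_num, mul_smul]
    rw [this, this, f4]
  obtain ⟨m, rfl⟩ : ∃ m, b = m + 3 := ⟨b - 3, by omega⟩
  simp only [Nat.add_sub_cancel] at e2
  have hm : 22 - (m + 3) + m = 19 := by omega
  set r : ℕ := 22 - (m + 3) with hr
  have g19 : (19 : ℕ) • cz (1 : ℚ) = r • cz (1 : ℚ) + m • cz (1 : ℚ) := by
    rw [← add_smul, hm]
  have key : cz (2 * c) + cz (6 * c) - csum (A.map fun a => c * a) - csum N + r • cz (1 : ℚ) =
      0 := by
    have g1 : csum Y = cz (3 * c) + csum (A.map fun a => c * a) + (2 : ℕ) • cz c -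
        (21 : ℕ) • cz c := by
      have : csum Y = (csum Y + (-cz (3 * c) + -csum (A.map fun a => c * a))) +
        (cz (3 * c) + csum (A.map fun a => c * a)) := by abel
      rw [this, e1]
      rw [smul_neg]
      abel
    have g2 : csum N = (3 : ℕ) • cz (1 : ℚ) - m • cz (1 : ℚ) - csum Y := by
      have : csum N = (csum Y + csum N) - csum Y := by abel
      rw [this, e2, smul_neg]
      abel
    have h5 : cz (2 * c) + cz (6 * c) = (3 : ℕ) • cz c - cz (3 * c) := by
      rw [f3]
      abel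
    rw [h5, g2, g1]
    have h6 : (3 : ℕ) • cz c - cz (3 * c) - csum (A.map fun a => c * a) -
        ((3 : ℕ) • cz (1 : ℚ) - m • cz (1 : ℚ) - (cz (3 * c) + csum (A.map fun a => c * a) +
          (2 : ℕ) • cz c - (21 : ℕ) • cz c)) + r • cz (1 : ℚ) =
        (r • cz (1 : ℚ) + m • cz (1 : ℚ)) - (3 : ℕ) • cz (1 : ℚ) - (16 : ℕ) • cz c := by
      abel
    rw [h6, ← g19, f16]
    abel
  obtain ⟨n, w, hw⟩ := exists_family A
  obtain ⟨l, z, hz⟩ := exists_family N
  have hwpos : ∀ i, 0 < w i := fun i => hA _ (hw ▸ Multiset.mem_map.2 ⟨i, Finset.mem_univ_val i, rfl⟩)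
  have hz0 : ∀ i, z i ≠ 0 := fun i h => hN (hz ▸ Multiset.mem_map.2 ⟨i, Finset.mem_univ_val i, h⟩)
  have hn : A.card = n := by rw [← hw]; simp
  have hl : N.card = l := by rw [← hz]; simp
  have hmet : Met (Sum.elim (Sum.elim ![2 * c, 6 * c] (fun i => -(c * w i)))
      (Sum.elim (fun i => -z i) (fun _ : Fin r => (1 : ℚ)))) := by
    apply Met_of_MM
    rw [← csum_eq_zero]
    · have m5 : Finset.univ.val.map (Sum.elim (Sum.elim ![2 * c, 6 * c] (fun i => -(c * w i)))
          (Sum.elim (fun i => -z i) (fun _ : Fin r => (1 : ℚ)))) =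
          ({2 * c, 6 * c} + (A.map fun a => c * a).map fun a => -a) +
            (N.map (fun a => -a) + Multiset.replicate r 1) := by
        rw [map_sumElim, map_sumElim, map_sumElim, ← hw, ← hz, Multiset.map_map, Multiset.map_map,
          Multiset.map_map]
        congr 2
        rw [Multiset.map_const']
        simp
      rw [m5, csum_add, csum_add, csum_add, csum_neg, csum_neg, csum_replicate]
      have c2 : csum ({2 * c, 6 * c} : Multiset ℚ) = cz (2 * c) + cz (6 * c) := by
        unfold csum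
        simp
      rw [c2, ← key]
      abel
    · intro h
      obtain ⟨i, _, hi⟩ := Multiset.mem_map.1 h
      rcases i with (i | i) | (i | i)
      · fin_cases i <;> simp [hc0] at hi
      · simp only [Sum.elim_inl, Sum.elim_inr, neg_eq_zero] at hi
        exact mul_ne_zero hc0 (hwpos i).ne' hi
      · simp only [Sum.elim_inl, Sum.elim_inr, neg_eq_zero] at hi
        exact hz0 i hi
      · simp at hi
  obtain ⟨v, hv, hv0⟩ := isotropic_of_met (by
    simp only [Fintype.card_sum, Fintype.card_fin]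
    omega) hmet
  rw [Fintype.sum_sum_type, Fin.sum_univ_two] at hv0
  simp only [Sum.elim_inl, Sum.elim_inr, Matrix.cons_val_zero, Matrix.cons_val_one] at hv0
  have hv1 : ∑ i, w i * v (Sum.inr i) ^ 2 = 2 * (v (Sum.inl 0) ^ 2 + 3 * v (Sum.inl 1) ^ 2) := by
    have h6 : ∑ i, -(c * w i) * v (Sum.inr i) * v (Sum.inr i) =
        -(c * ∑ i, w i * v (Sum.inr i) ^ 2) := by
      rw [Finset.mul_sum, ← Finset.sum_neg_distrib]
      refine Finset.sum_congr rfl (fun i _ => by ring)
    rw [h6] at hv0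
    have h7 : c * (2 * (v (Sum.inl 0) ^ 2 + 3 * v (Sum.inl 1) ^ 2) -
        ∑ i, w i * v (Sum.inr i) ^ 2) = 0 := by linarith [hv0]
    rcases mul_eq_zero.1 h7 with h | h
    · exact absurd h hc0
    · linarith
  refine ⟨n, w, hw, fun i => v (Sum.inr i), v (Sum.inl 0), v (Sum.inl 1), ?_, hv1⟩
  intro h
  have h8 : ∑ i, w i * v (Sum.inr i) ^ 2 = 0 := by
    refine Finset.sum_eq_zero (fun i _ => ?_)
    have : v (Sum.inr i) = 0 := congrFun h i
    rw [this]
    ring
  rw [h8] at hv1
  have h9 : v (Sum.inl 0) = 0 := by nlinarith [sq_nonneg (v (Sum.inl 0)), sq_nonneg (v (Sum.inl 1))]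
  have h10 : v (Sum.inl 1) = 0 := by
    nlinarith [sq_nonneg (v (Sum.inl 0)), sq_nonneg (v (Sum.inl 1))]
  apply hv
  funext i
  rcases i with i | i
  · fin_cases i
    · exact h9
    · exact h10
  · exact congrFun h i

variable {W : World} {C : Cub W}

/-- **Rational cubic fourfolds with `End T(X) = ℚ`.** -/
theorem rational_norm (K : KnownCubic C) (F : Forms W) (KF : FormFacts2 C F) {X : W.V}
    (hX : C.IsCubic X) (h : Rational W X) (hE : C.EndQ (C.T X)) :
    ∃ (n : ℕ) (w : Fin n → ℚ), Finset.univ.val.map w = F.qA X ∧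
      ∃ (v : Fin n → ℚ) (x y : ℚ), v ≠ 0 ∧ ∑ i, w i * v i ^ 2 = 2 * (x ^ 2 + 3 * y ^ 2) := by
  obtain ⟨S, hS, hT, h5, h6⟩ := rational_cubic K hX h
  obtain ⟨_, _, hr⟩ := K.hodge.cubic X hX
  obtain ⟨h7, h8⟩ := K.surf.noether S hS
  obtain ⟨s1, s2, s3, s4, s5⟩ := KF.surface S hS
  obtain ⟨x1, x2, x3, x4⟩ := KF.cubic X hX
  obtain ⟨c, hc, hcc⟩ := KF.prop X S hX hS hT hE
  have hT2 : 2 ≤ C.rkH (C.T S) := K.hodge.rk_two (C.T S)
  rw [hT] at hr
  exact isotropic_of_forms (b := C.rkH (C.T S) + C.rho S) hc x1 s1 x2 s2 (by omega) (by omega)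
    (by omega) x4 s5 hcc

end Run7.H457.DB
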