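import Mathlib
import Pool.Agent.Run7.h457.DB.Gen
import Pool.Agent.Run7.h457.DB.Norm

namespace Run7.H457.DB

/-- There is a nonzero vector of `A(X)_prim ⊗ ℚ` of the form `2 (x² + 3 y²)`; equivalently the algebraic
part of the Mukai lattice of `Ku(X)` contains an isotropic vector, `X` lies in `C_d` for some `d` with
condition (**') of Huybrechts. -/
def Isotropic {W : World} (F : Forms W) (X : W.V) : Prop :=
  ∃ (n : ℕ) (w : Fin n → ℚ), Finset.univ.val.map w = F.qA X ∧
    ∃ (v : Fin n → ℚ) (x y : ℚ), v ≠ 0 ∧ ∑ i, w i * v i ^ 2 = 2 * (x ^ 2 + 3 * y ^ 2)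

/-- `d` violates condition (**'): some prime `p ≡ 2` modulo `3` has an odd exponent in `d / 2`. -/
def Viol (d : ℕ) : Prop := ∃ p : ℕ, p.Prime ∧ p % 3 = 2 ∧ ¬ Even (padicValRat p ((d : ℚ) / 2))

variable {W : World} {C : Cub W}

/-- Known facts on a condition `As` which is equivalent to or stronger than the existence of an
associated K3 surface: it implies `rk A(X) ≥ 2`, and if `rk A(X) = 2` then `d` satisfies (**), hence
(**'). -/
structure AssocFacts (C : Cub W) (As : W.V → Prop) : Prop where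
  rank : ∀ X, C.IsCubic X → As X → 2 ≤ C.rA X
  disc : ∀ X, C.IsCubic X → C.rA X = 2 → As X → ¬ Viol (C.disc X)

theorem rational_isotropic (K : KnownCubic C) (F : Forms W) (KF : FormFacts2 C F) {X : W.V}
    (hX : C.IsCubic X) (h : Rational W X) (hE : C.EndQ (C.T X)) : Isotropic F X :=
  rational_norm K F KF hX h hE

theorem not_viol (K : KnownCubic C) {X : W.V} (hX : C.IsCubic X) (h : Rational W X)
    (h2 : C.rA X = 2) (hE : C.EndQ (C.T X)) : ¬ Viol (C.disc X) := by
  rintro ⟨p, hp, h3, h4⟩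
  obtain ⟨a, b, h⟩ := rank_two_norm K hX h h2 hE
  have : Fact p.Prime := ⟨hp⟩
  have hd : 0 < C.disc X := (K.form.cubic X hX h2).1
  have hd' : (C.disc X : ℚ) ≠ 0 := by exact_mod_cast hd.ne'
  exact h4 (even_val h3 (div_ne_zero hd' two_ne_zero) (a := a) (b := b) (by rw [h]; ring))

theorem both_false (K : KnownCubic C) {As : W.V → Prop} (A : AssocFacts C As) {X : W.V}
    (hX : C.IsCubic X) (h : C.rA X ≤ 1 ∨ (C.rA X = 2 ∧ C.EndQ (C.T X) ∧ Viol (C.disc X))) :
    ¬ Rational W X ∧ ¬ As X := by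
  rcases h with h | ⟨h2, hE, hV⟩
  · refine ⟨fun hr => ?_, fun hA => ?_⟩
    · obtain ⟨S, _, _, h1, h3⟩ := rational_cubic K hX hr
      omega
    · have := A.rank X hX hA
      omega
  · exact ⟨fun hr => not_viol K hX hr h2 hE hV, fun hA => A.disc X hX h2 hA hV⟩

end Run7.H457.DB
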